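import Pool.Agent.H772R3.Specht3

set_option autoImplicit false

/-!
Independence of the monomials `W n`: continuum many nonmatrix locally admissible varieties.
The lemmas on algebras satisfying the common identities of the algebras `Alg F N` are those of
`Specht3`, with these identities only as the hypothesis.
-/

namespace Pool.Agent.Y355.NJ

open Pool.Agent.H772R3.Specht hiding S mono_mem word_of_satisfies anti_of_satisfies
  solvable_of_satisfies long_of_satisfies locallyNilpotent_of_satisfies not_simple_of_satisfies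
  projHom lift_Q surj_Q main

universe u

section Variety

variable (F : Type u) [Field F]

/-- The identities common to all the algebras `Alg F N`. -/
def Com : Set (NAPoly F) :=
  {f | ∀ (N : ℕ) (a : ℕ → Alg F N), FreeNonUnitalNonAssocAlgebra.lift F a f = 0}

/-- The common identities and the monomials `W n`, `n ∈ B`. -/
def SB (B : Set ℕ) : Set (NAPoly F) := Com F ∪ (fun n : ℕ => mono id (W n)) '' B

variable {F}

lemma mono_mem {X : Type} (v : X → ℕ) (w : FreeMagma X)
    (h : ∀ (N : ℕ) (a : ℕ → Alg F N), FreeMagma.lift (fun i => a (v i)) w = 0) :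
    mono v w ∈ Com F := by
  intro N a
  rw [lift_mono]
  exact h N a

variable {A : Type u} [NonUnitalNonAssocRing A] [Module F A] [IsScalarTower F A A]
  [SMulCommClass F A A]

lemma word_of_satisfies (hA : Satisfies (Com F) A) {X : Type} (v : X → ℕ) (w : FreeMagma X)
    (h : ∀ (N : ℕ) (a : ℕ → Alg F N), FreeMagma.lift (fun i => a (v i)) w = 0) (a : ℕ → A) :
    FreeMagma.lift (fun i => a (v i)) w = 0 := by
  rw [← lift_mono (F := F)]
  exact hA _ (mono_mem v w h) a

lemma anti_of_satisfies (hA : Satisfies (Com F) A) (x y : A) : x * y = -(y * x) := by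
  have h0 : ∀ x : A, x * x = 0 := by
    intro x
    have := word_of_satisfies hA id (FreeMagma.of 0 * FreeMagma.of 0) (by
      intro N a
      simp only [id, map_mul, FreeMagma.lift_of]
      have h := Alg.mul_anti (a 0) (a 0)
      rw [Alg.mul_def]
      have hc : Alg.chain (a 0) (a 0) = 0 := by
        funext k
        cases k with
        | zero => simp only [Alg.chain]; rw [mul_comm, sub_self, map_zero]; rfl
        | succ k => simp only [Alg.chain, sub_self]; rfl
      rw [hc]
      simp only [Alg.zero_def, Alg.mk.injEq, sub_self, and_true, true_and]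
      refine ⟨?_, ?_, ?_⟩ <;> ring) (fun _ => x)
    simpa using this
  have h1 := h0 (x + y)
  rw [mul_add, add_mul, add_mul, h0, h0, zero_add, add_zero] at h1
  exact eq_neg_of_add_eq_zero_right h1

lemma solvable_of_satisfies (hA : Satisfies (Com F) A) (x0 x1 x2 x3 x4 x5 : A) :
    ((x0 * x1) * (x2 * x3)) * (x4 * x5) = 0 := by
  have := word_of_satisfies hA id (((FreeMagma.of 0 * FreeMagma.of 1) *
    (FreeMagma.of 2 * FreeMagma.of 3)) * (FreeMagma.of 4 * FreeMagma.of 5)) (by
      intro N a
      simp only [id, map_mul, FreeMagma.lift_of]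
      exact Alg.solvable _ _ _ _ _ _)
    (fun i => if i = 0 then x0 else if i = 1 then x1 else if i = 2 then x2 else
      if i = 3 then x3 else if i = 4 then x4 else x5)
  simpa using this

lemma long_of_satisfies (hA : Satisfies (Com F) A) {g : ℕ} (u : Fin g → A)
    (w : FreeMagma (Fin g)) (h : g + 7 ≤ w.length) : FreeMagma.lift u w = 0 := by
  have := word_of_satisfies hA (fun i : Fin g => (i : ℕ)) w
    (fun N a => Alg.val_zero (fun i : Fin g => a i) w h)
    (fun i => if hi : i < g then u ⟨i, hi⟩ else 0)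
  simpa using this

theorem locallyNilpotent_of_satisfies (hA : Satisfies (Com F) A) : IsLocallyNilpotent F A := by
  intro s
  classical
  obtain ⟨g, hg⟩ : ∃ g, g = s.card := ⟨_, rfl⟩
  let e := s.equivFinOfCardEq hg.symm
  let u : Fin g → A := fun i => (e.symm i : A)
  let P : ℕ → Submodule F A := fun k => Submodule.span F
    {x | ∃ w : FreeMagma (Fin g), k ≤ w.length ∧ x = FreeMagma.lift u w}
  have hmul : ∀ k l x y, x ∈ P k → y ∈ P l → x * y ∈ P (k + l) := by
    intro k l x y hx hy
    induction hx using Submodule.span_induction with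
    | mem x h =>
      obtain ⟨w, hw, rfl⟩ := h
      induction hy using Submodule.span_induction with
      | mem y h =>
        obtain ⟨w', hw', rfl⟩ := h
        exact Submodule.subset_span ⟨w * w', add_le_add hw hw', (map_mul _ _ _).symm⟩
      | zero => rw [mul_zero]; exact Submodule.zero_mem _
      | add y y' _ _ h h' => rw [mul_add]; exact Submodule.add_mem _ h h'
      | smul c y _ h => rw [mul_smul_comm]; exact Submodule.smul_mem _ _ h
    | zero => rw [zero_mul]; exact Submodule.zero_mem _
    | add x x' _ _ h h' => rw [add_mul]; exact Submodule.add_mem _ h h'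
    | smul c x _ h => rw [smul_mul_assoc]; exact Submodule.smul_mem _ _ h
  have hmono : ∀ k l, k ≤ l → P l ≤ P k := fun k l hkl =>
    Submodule.span_mono fun _ ⟨w, hw, hx⟩ => ⟨w, hkl.trans hw, hx⟩
  have hB : ∀ x ∈ NonUnitalAlgebra.adjoin F (s : Set A), x ∈ P 1 := by
    intro x hx
    induction hx using NonUnitalAlgebra.adjoin_induction with
    | mem x hx =>
      refine Submodule.subset_span ⟨FreeMagma.of (e ⟨x, hx⟩), le_rfl, ?_⟩
      simp [u]
    | add x y _ _ h h' => exact Submodule.add_mem _ h h'
    | zero => exact Submodule.zero_mem _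
    | mul x y _ _ h h' => exact hmono 1 2 (by norm_num) (hmul 1 1 x y h h')
    | smul c x _ h => exact Submodule.smul_mem _ _ h
  refine ⟨g + 7, fun w hw => ?_⟩
  have key : ∀ w : FreeMagma (NonUnitalAlgebra.adjoin F (s : Set A)),
      ((FreeMagma.lift id w : NonUnitalAlgebra.adjoin F (s : Set A)) : A) ∈ P w.length := by
    intro w
    induction w with
    | ih1 x => exact hB _ x.2
    | ih2 x y hx hy => exact hmul _ _ _ _ hx hy
  have h1 := key w
  have h2 : P w.length = ⊥ := by
    rw [eq_bot_iff, Submodule.span_le]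
    rintro _ ⟨w', hw', rfl⟩
    exact long_of_satisfies hA u w' (hw.trans hw')
  rw [h2, Submodule.mem_bot] at h1
  exact Subtype.ext h1

theorem not_simple_of_satisfies (hA : Satisfies (Com F) A) : ¬ IsSimpleAlgebra F A := by
  rintro ⟨⟨x, y, hxy⟩, hI⟩
  let P : Submodule F A := Submodule.span F {x | ∃ a b : A, x = a * b}
  have hP : P = ⊤ := by
    rcases hI P (fun a x _ => ⟨Submodule.subset_span ⟨a, x, rfl⟩,
      Submodule.subset_span ⟨x, a, rfl⟩⟩) with h | h
    · exfalso
      apply hxy
      have : x * y ∈ P := Submodule.subset_span ⟨x, y, rfl⟩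
      rw [h, Submodule.mem_bot] at this
      exact this
    · exact h
  have hT : ∀ z : A, z ∈ P := fun z => by rw [hP]; exact Submodule.mem_top
  have h2 : ∀ a b c d e f : A, ((a * b) * (c * d)) * (e * f) = 0 := solvable_of_satisfies hA
  have h3 : ∀ a b c d z : A, ((a * b) * (c * d)) * z = 0 := by
    intro a b c d z
    induction hT z using Submodule.span_induction with
    | mem z h => obtain ⟨e, f, rfl⟩ := h; exact h2 _ _ _ _ _ _
    | zero => rw [mul_zero]
    | add z z' _ _ h h' => rw [mul_add, h, h', add_zero]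
    | smul r z _ h => rw [mul_smul_comm, h, smul_zero]
  have h4 : ∀ a b y z : A, ((a * b) * y) * z = 0 := by
    intro a b y z
    induction hT y using Submodule.span_induction with
    | mem y h => obtain ⟨e, f, rfl⟩ := h; exact h3 _ _ _ _ _
    | zero => rw [mul_zero, zero_mul]
    | add y y' _ _ h h' => rw [mul_add, add_mul, h, h', add_zero]
    | smul r y _ h => rw [mul_smul_comm, smul_mul_assoc, h, smul_zero]
  have h5 : ∀ x y z : A, (x * y) * z = 0 := by
    intro x y z
    induction hT x using Submodule.span_induction with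
    | mem x h => obtain ⟨e, f, rfl⟩ := h; exact h4 _ _ _ _
    | zero => rw [zero_mul, zero_mul]
    | add x x' _ _ h h' => rw [add_mul, add_mul, h, h', add_zero]
    | smul r x _ h => rw [smul_mul_assoc, smul_mul_assoc, h, smul_zero]
  have h6 : ∀ x z : A, x * z = 0 := by
    intro x z
    induction hT x using Submodule.span_induction with
    | mem x h => obtain ⟨e, f, rfl⟩ := h; exact h5 _ _ _
    | zero => rw [zero_mul]
    | add x x' _ _ h h' => rw [add_mul, h, h', add_zero]
    | smul r x _ h => rw [smul_mul_assoc, h, smul_zero]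
  exact hxy (h6 x y)

end Variety

section Family

variable {F : Type u} [Field F]

lemma com_of_SB {B : Set ℕ} {A : Type u} [NonUnitalNonAssocRing A] [Module F A]
    [IsScalarTower F A A] [SMulCommClass F A A] (h : Satisfies (SB F B) A) :
    Satisfies (Com F) A := fun f hf => h f (Or.inl hf)

/-- the algebra `Alg F N` satisfies exactly the monomials `W n` with `n ≠ N` -/
theorem Alg_satisfies {B : Set ℕ} {N : ℕ} : Satisfies (SB F B) (Alg F N) ↔ N ∉ B := by
  constructor
  · intro h hN
    have := h (mono id (W N)) (Or.inr ⟨N, hN, rfl⟩) (Alg.wit F N)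
    rw [lift_mono] at this
    exact Alg.W_ne_zero F N this
  · intro hN f hf a
    rcases hf with hf | ⟨n, hn, rfl⟩
    · exact hf N a
    · simp only
      rw [lift_mono]
      exact Alg.W_zero _ n (by rintro rfl; exact hN hn)

/-- the sequences which are eventually zero on `B` -/
noncomputable def evZ (F : Type u) [Field F] (B : Set ℕ) : AlgIdeal F (Prd F) where
  I :=
    { carrier := {x | ∃ k, ∀ N ∈ B, k ≤ N → x N = 0}
      add_mem' := by
        rintro x y ⟨k, hk⟩ ⟨l, hl⟩
        refine ⟨max k l, fun N hB hN => ?_⟩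
        rw [Pi.add_apply, hk N hB (le_trans (le_max_left _ _) hN),
          hl N hB (le_trans (le_max_right _ _) hN), add_zero]
      zero_mem' := ⟨0, fun _ _ _ => rfl⟩
      smul_mem' := by
        rintro c x ⟨k, hk⟩
        refine ⟨k, fun N hB hN => ?_⟩
        rw [Pi.smul_apply, hk N hB hN, smul_zero] }
  mul_left := by
    rintro a x ⟨k, hk⟩
    refine ⟨k, fun N hB hN => ?_⟩
    rw [Pi.mul_apply, hk N hB hN, mul_zero]
  mul_right := by
    rintro a x ⟨k, hk⟩
    refine ⟨k, fun N hB hN => ?_⟩
    rw [Pi.mul_apply, hk N hB hN, zero_mul]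

variable {B : Set ℕ}

/-- the quotient map as a homomorphism of algebras -/
noncomputable def pj (B : Set ℕ) : Prd F →ₙₐ[F] Q (evZ F B) where
  toFun := proj (evZ F B)
  map_smul' r x := (proj (evZ F B)).map_smul r x
  map_zero' := map_zero (proj (evZ F B))
  map_add' := map_add (proj (evZ F B))
  map_mul' := proj_mul (evZ F B)

lemma lift_QB (a : ℕ → Prd F) (f : NAPoly F) :
    FreeNonUnitalNonAssocAlgebra.lift F (fun i => pj B (a i)) f = 0 ↔
      ∃ k, ∀ N ∈ B, k ≤ N → FreeNonUnitalNonAssocAlgebra.lift F (fun i => a i N) f = 0 := by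
  rw [lift_map]
  have h1 : pj B (FreeNonUnitalNonAssocAlgebra.lift F a f) = 0 ↔
      FreeNonUnitalNonAssocAlgebra.lift F a f ∈ (evZ F B).I := by
    have := proj_eq (evZ F B) (x := FreeNonUnitalNonAssocAlgebra.lift F a f) (y := 0)
    rw [sub_zero, map_zero] at this
    exact this
  rw [h1]
  have h2 : ∀ N, (FreeNonUnitalNonAssocAlgebra.lift F a f) N =
      FreeNonUnitalNonAssocAlgebra.lift F (fun i => a i N) f := by
    intro N
    have := lift_map (coordHom (F := F) N) a f
    exact this.symm
  constructor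
  · rintro ⟨k, hk⟩
    exact ⟨k, fun N hB hN => by rw [← h2]; exact hk N hB hN⟩
  · rintro ⟨k, hk⟩
    exact ⟨k, fun N hB hN => by rw [h2]; exact hk N hB hN⟩

lemma surj_QB (b : ℕ → Q (evZ F B)) : ∃ a : ℕ → Prd F, b = fun i => pj B (a i) := by
  choose a ha using fun i => proj_surj (evZ F B) (b i)
  exact ⟨a, funext fun i => (ha i).symm⟩

theorem QB_satisfies : Satisfies (SB F B) (Q (evZ F B)) := by
  intro f hf b
  obtain ⟨a, rfl⟩ := surj_QB b
  rw [lift_QB]
  rcases hf with hf | ⟨n, -, rfl⟩
  · exact ⟨0, fun N _ _ => hf N _⟩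
  · refine ⟨n + 1, fun N _ hN => ?_⟩
    simp only
    rw [lift_mono]
    exact Alg.W_zero _ n (by omega)

theorem not_finitelyBased' (hB : B.Infinite) : ¬ FinitelyBased F (SB F B) := by
  rintro ⟨T, hT⟩
  have h1 : ∀ N ∈ B, ∃ t ∈ T, ∃ a : ℕ → Alg F N,
      FreeNonUnitalNonAssocAlgebra.lift F a t ≠ 0 := by
    intro N hN
    have : ¬ Satisfies (SB F B) (Alg F N) := fun h => Alg_satisfies.1 h hN
    rw [hT] at this
    simp only [Satisfies, not_forall] at this
    obtain ⟨t, ht, a, ha⟩ := this
    exact ⟨t, ht, a, ha⟩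
  have h2 : Satisfies (T : Set (NAPoly F)) (Q (evZ F B)) := (hT _).mp QB_satisfies
  have h3 : ∀ t ∈ T, ∃ k, ∀ N ∈ B, k ≤ N → ∀ a : ℕ → Alg F N,
      FreeNonUnitalNonAssocAlgebra.lift F a t = 0 := by
    intro t ht
    classical
    let a : ∀ N, ℕ → Alg F N := fun N =>
      if h : ∃ a : ℕ → Alg F N, FreeNonUnitalNonAssocAlgebra.lift F a t ≠ 0 then h.choose else 0
    have h4 := h2 t ht (fun i => pj B (fun N => a N i))
    rw [lift_QB] at h4
    obtain ⟨k, hk⟩ := h4
    refine ⟨k, fun N hNB hN b => ?_⟩
    by_contra hb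
    have hex : ∃ a : ℕ → Alg F N, FreeNonUnitalNonAssocAlgebra.lift F a t ≠ 0 := ⟨b, hb⟩
    have h5 := hk N hNB hN
    have h6 : (fun i => a N i) = hex.choose := by
      simp only [a, dif_pos hex]
    rw [h6] at h5
    exact hex.choose_spec h5
  choose! k hk using h3
  obtain ⟨N, hNB, hN⟩ := hB.exists_gt (T.sup k)
  obtain ⟨t, ht, a, ha⟩ := h1 N hNB
  exact ha (hk t ht _ hNB ((Finset.le_sup ht).trans hN.le) a)

theorem ncj (B : Set ℕ) : NoncommutativeJordanVariety F (SB F B) := by
  intro A _ _ _ _ hA x y
  have h : ∀ x y : A, x * y = -(y * x) := anti_of_satisfies (com_of_SB hA)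
  have h0 : ∀ x : A, x * x = 0 := by
    intro x
    have := word_of_satisfies (com_of_SB hA) id (FreeMagma.of 0 * FreeMagma.of 0) (by
      intro N a
      simp only [id, map_mul, FreeMagma.lift_of]
      rw [Alg.mul_def]
      have hc : Alg.chain (a 0) (a 0) = 0 := by
        funext k
        cases k with
        | zero => simp only [Alg.chain]; rw [mul_comm, sub_self, map_zero]; rfl
        | succ k => simp only [Alg.chain, sub_self]; rfl
      rw [hc]
      simp only [Alg.zero_def, Alg.mk.injEq, sub_self, and_true, true_and]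
      refine ⟨?_, ?_, ?_⟩ <;> ring) (fun _ => x)
    simpa using this
  refine ⟨?_, ?_⟩
  · rw [h (x * y) x, h x y, mul_neg, neg_neg]
  · rw [h0, zero_mul, zero_mul, zero_mul]

end Family

end Pool.Agent.Y355.NJ
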